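import Pool.Agent.Q171.RC.NonGT
import Pool.Agent.Q171.RC.Seq

/-!
# Lang's criterion in algebraic families, for entire curves given by functional equations

Let `k` be a field with an embedding in `ℂ` and let `X_t`, for `t = (t_1, ..., t_m)`, be an algebraic
family of projective varieties over `k`: `X_t` is given by forms in `n + 1` variables of degree at most
`D` whose coefficients are polynomials in `t` over `k`. We consider holomorphic maps `f : ℂ → X_t`
with meromorphic homogeneous coordinates `h_j` each of which satisfies a nontrivial linear functional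
equation `∑ P_i (τ z) h_j (σ^i z) = 0`, `i ≤ r`, with polynomials `P_i` of degree at most `e`
(`LinCurve r e σ τ f`). Here `σ` is a nonconstant entire function and `τ` is an entire function with
`τ (σ z) = α τ z + β`; for instance `σ z = q z`, `τ z = z` (`q`-difference equations) or
`σ z = z + b`, `τ z = z` (difference equations).

For all `n`, `D`, `r`, `e` there is a number `δ` such that for every such family there are finitely many
forms `G` with coefficients in `k[t_1, ..., t_m]`, with sets of zeros `Z_t`, and a Zariski-OPEN set `U`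
of parameters, given by polynomials over `k`, such that for all `t` with coordinates in `ℂ`

(1) every point of `Z_t` lies on a subvariety of `X_t` of dimension one which is NOT of general type;

(2) all nonconstant entire curves in `X_t` given by `q`-difference equations of order at most `r` with
coefficients of degree at most `e`, for all `q` which are not zero and not roots of unity, lie in
`Z_t`;

(3) for all `σ`, `τ` as above with `τ ∘ σ^i ≠ τ` for `0 < i ≤ δ`, each entire curve `f` in `X_t` with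
`LinCurve r e σ τ f` lies in `Z_t`, or `f ∘ σ^i = f` for some `0 < i ≤ δ`;

(4) `t` is in `U` if and only if `Z_t` is empty;

(5) `U` contains all `t` for which `X_t` is hyperbolic and all `t` for which all subvarieties of `X_t`
are of general type.
-/

set_option autoImplicit false

namespace Pool.Agent.Results.MP_c6ff8d_ag.FunctionalEquationsInFamilies

open MvPolynomial Pool.Agent.Q171.RC Pool.Agent.W602.GT Pool.Agent.Q309.DU
open Pool.Agent.TH143.EL (HolMap)
open scoped LinearAlgebra.Projectivization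

/-- The projective variety `X = {F = 0, F ∈ S}` is (Brody, hence Kobayashi) hyperbolic. -/
def Hyperbolic {N : ℕ} (S : Set (MvPolynomial (Fin N) ℂ)) : Prop :=
  ∀ g : ℂ → (Fin N → ℂ), Differentiable ℂ g → (∀ z, g z ≠ 0) →
    (∀ z, ∀ F ∈ S, eval (g z) F = 0) → ∀ z, ∃ c : ℂ, g z = c • g 0

/-- All closed subvarieties of positive dimension of the projective variety of `S` are of general
type. Subvarieties of dimension `w` are given by their function fields `K` and generic points `y`. -/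
def AllOfGeneralType {n : ℕ} (S : Set (MvPolynomial (Fin (n + 1)) ℂ)) : Prop :=
  ∀ (K : Type) [Field K] [Algebra ℂ K] (w : ℕ) (y : Fin (n + 1) → K), 1 ≤ w →
    SubVar (fun F : S => F.1) K w y → GeneralType ℂ K w

/-- The point `x` lies on an irreducible closed subvariety of dimension one of the projective variety
of `S` which is not of general type. -/
def OnNotGeneralType {n : ℕ} (S : Set (MvPolynomial (Fin (n + 1)) ℂ)) (x : Fin (n + 1) → ℂ) : Prop :=
  ∃ (K : Type) (_ : Field K) (_ : Algebra ℂ K) (y : Fin (n + 1) → K),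
    SubVar (fun F : S => F.1) K 1 y ∧ ¬ GeneralType ℂ K 1 ∧
      ∀ G : MvPolynomial (Fin (n + 1)) ℂ, (∃ d, G.IsHomogeneous d) → aeval y G = 0 → eval x G = 0

/-- `f` is an entire curve in the projective variety of `S`. -/
def EntireCurve {n : ℕ} (S : Set (MvPolynomial (Fin (n + 1)) ℂ))
    (f : ℂ → ℙ ℂ (Fin (n + 1) → ℂ)) : Prop :=
  HolMap f ∧ ∀ z, ∀ F ∈ S, eval (f z).rep F = 0

/-- the equations of the member `X_t` of the family, for `t` with coordinates in `ℂ` -/
def member {N m : ℕ} {k : Type} [Field k] [Algebra k ℂ]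
    (S : Set (MvPolynomial (Fin N) (MvPolynomial (Fin m) k))) (t : Fin m → ℂ) :
    Set (MvPolynomial (Fin N) ℂ) := map (aeval t : MvPolynomial (Fin m) k →ₐ[k] ℂ).toRingHom '' S

theorem result (n D r e : ℕ) : ∃ δ : ℕ, ∀ (k : Type) [Field k] [Algebra k ℂ] (m : ℕ)
    (S : Set (MvPolynomial (Fin (n + 1)) (MvPolynomial (Fin m) k))),
    (∀ F ∈ S, ∃ e, e ≤ D ∧ F.IsHomogeneous e) →
    ∃ (Z : Set (MvPolynomial (Fin (n + 1)) (MvPolynomial (Fin m) k)))
      (Ps : Set (MvPolynomial (Fin m) k)), Z.Finite ∧ (∀ G ∈ Z, ∃ d, G.IsHomogeneous d) ∧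
      ∀ t : Fin m → ℂ,
        (∀ x : Fin (n + 1) → ℂ, x ≠ 0 → (∀ G ∈ member Z t, eval x G = 0) →
          OnNotGeneralType (member S t) x) ∧
        (∀ q : ℂ, q ≠ 0 → (∀ i : ℕ, 0 < i → q ^ i ≠ 1) → ∀ f : ℂ → ℙ ℂ (Fin (n + 1) → ℂ),
          EntireCurve (member S t) f → (∃ z w, f z ≠ f w) →
          LinCurve r e (fun z => q * z) (fun z => z) f →
          ∀ z, ∀ G ∈ member Z t, eval (f z).rep G = 0) ∧
        (∀ (σ τ : ℂ → ℂ) (α β : ℂ), Differentiable ℂ σ → (∃ z w, σ z ≠ σ w) →
          Differentiable ℂ τ → (∀ z, τ (σ z) = α * τ z + β) →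
          (∀ i, 0 < i → i ≤ δ → ∃ z, τ (σ^[i] z) ≠ τ z) →
          ∀ f : ℂ → ℙ ℂ (Fin (n + 1) → ℂ), EntireCurve (member S t) f → LinCurve r e σ τ f →
            (∀ z, ∀ G ∈ member Z t, eval (f z).rep G = 0) ∨
              ∃ i, 0 < i ∧ i ≤ δ ∧ ∀ z, f (σ^[i] z) = f z) ∧
        ((∃ Ψ ∈ Ps, aeval t Ψ ≠ 0) ↔
          ∀ x : Fin (n + 1) → ℂ, x ≠ 0 → ∃ G ∈ member Z t, eval x G ≠ 0) ∧
        (Hyperbolic (member S t) ∨ AllOfGeneralType (member S t) → ∃ Ψ ∈ Ps, aeval t Ψ ≠ 0) := by
  classical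
  obtain ⟨δ, hδ⟩ := fun_locus n D r e
  refine ⟨δ, fun k _ _ m S hS => ?_⟩
  have hS' : ∀ F ∈ S, ∃ d, F.IsHomogeneous d := fun F hF => by
    obtain ⟨e, -, he⟩ := hS F hF
    exact ⟨e, he⟩
  have hSt : ∀ t, ∀ F ∈ member S t, ∃ e, e ≤ D ∧ F.IsHomogeneous e := by
    rintro t _ ⟨F, hF, rfl⟩
    obtain ⟨e, he, he'⟩ := hS F hF
    exact ⟨e, he, he'.map _⟩
  have hSt' : ∀ t, ∀ F ∈ member S t, ∃ d, F.IsHomogeneous d := fun t F hF => by
    obtain ⟨e, -, he⟩ := hSt t F hF
    exact ⟨e, he⟩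
  obtain ⟨Gs, hGs, hloc⟩ := locus ℂ S hS' δ
  obtain ⟨Ps, hPs⟩ := open_locus S hS' δ
  have hpt : ∀ (t : Fin m → ℂ) (y : Fin (n + 1) → ℂ),
      HasPt (ev t : MvPolynomial (Fin m) k →+* ℂ) S δ y ↔ OnRat (member S t) δ y := by
    intro t y
    constructor
    · rintro ⟨p, h1, h2, h3, h4⟩
      refine ⟨p, h1, h2, ?_, h4⟩
      rintro _ ⟨F, hF, rfl⟩
      exact h3 F hF
    · rintro ⟨p, h1, h2, h3, h4⟩
      exact ⟨p, h1, h2, fun F hF => h3 _ ⟨F, hF, rfl⟩, h4⟩
  have hiff : ∀ (t : Fin m → ℂ) (x : Fin (n + 1) → ℂ), x ≠ 0 →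
      ((∀ G ∈ member (Gs : Set (MvPolynomial (Fin (n + 1)) (MvPolynomial (Fin m) k))) t,
        eval x G = 0) ↔ OnRat (member S t) δ x) := by
    intro t x hx
    rw [← hpt, ← hloc t x hx]
    constructor
    · intro h G hG
      exact h _ ⟨G, hG, rfl⟩
    · rintro h _ ⟨G, hG, rfl⟩
      exact h G hG
  have key : ∀ (t : Fin m → ℂ) (σ τ : ℂ → ℂ) (α β : ℂ), Differentiable ℂ σ →
      (∃ z w, σ z ≠ σ w) → Differentiable ℂ τ → (∀ z, τ (σ z) = α * τ z + β) →
      (∀ i, 0 < i → i ≤ δ → ∃ z, τ (σ^[i] z) ≠ τ z) →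
      ∀ f : ℂ → ℙ ℂ (Fin (n + 1) → ℂ), EntireCurve (member S t) f → LinCurve r e σ τ f →
        (∀ z, ∀ G ∈ member (Gs : Set (MvPolynomial (Fin (n + 1)) (MvPolynomial (Fin m) k))) t,
          eval (f z).rep G = 0) ∨ ∃ i, 0 < i ∧ i ≤ δ ∧ ∀ z, f (σ^[i] z) = f z := by
    intro t σ τ α β hσ hσn hτ hαβ hord f hf hl
    rcases hδ (member S t) (hSt t) σ τ α β hσ hσn hτ hαβ hord f hf.1 hf.2 hl with h1 | h1
    · exact Or.inl fun z => (hiff t _ (f z).rep_nonzero).2 (h1 z)
    · exact Or.inr h1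
  refine ⟨Gs, Ps, Gs.finite_toSet, fun G hG => hGs G hG, fun t =>
    ⟨fun x hx h => ?_, fun q hq0 hqr f hf hnc hl => ?_, key t, ?_, ?_⟩⟩
  · obtain ⟨K, i1, i2, y, h1, h2, h3⟩ := nonGT_through (hSt' t) ((hiff t x hx).1 h)
    exact ⟨K, i1, i2, y, h1, h2, h3⟩
  · rcases key t (fun z => q * z) (fun z => z) q 0
      (differentiable_id.const_mul q) ⟨0, 1, by simpa using hq0.symm⟩ differentiable_id
      (fun z => by simp) (fun i hi _ => ⟨1, by
        simp only [mul_iter, mul_one]
        exact hqr i hi⟩) f hf hl with h1 | ⟨i, hi, -, hinv⟩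
    · exact h1
    · exfalso
      obtain ⟨z, w, hzw⟩ := hnc
      exact hzw (const_of_dil hqr hf.1 hl hi hinv z w)
  · rw [hPs t]
    change NoRatLe (member S t) δ ↔ _
    rw [noRatLe_iff (hSt' t)]
    refine forall_congr' fun x => forall_congr' fun hx => ?_
    rw [← hiff t x hx]
    push Not
    rfl
  · intro h
    rw [hPs t]
    rcases h with h | h
    · exact noRat_of_brody (hSt' t) h δ
    · exact noRat_of_gt (hSt' t) h δ

end Pool.Agent.Results.MP_c6ff8d_ag.FunctionalEquationsInFamilies
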