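import Pool.Agent.Q80.FH.Main

/-!
MP_c6ff8d_ag, Q1: hyperbolicity and subvarieties of general type, for the projective schemes with a
finite morphism to projective space which is ramified over many general hypersurfaces.
-/

set_option autoImplicit false

namespace Pool.Agent.Results.MP_c6ff8d_ag.RamifiedCoversHyperbolic

open Pool.Agent.Q80.FH MvPolynomial

/-- Let `n, d ≥ 1` and `m ≥ 2`, `N + 1 = C(n + d, n)`, `2 N m ≤ K (m - 1)` and `q > C(N + K, N)`. Let
`F 1, …, F q` be general forms of degree `d` in `n + 1` variables and `X` a projective scheme over `ℂ`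
with a finite morphism to projective `n`-space which is ramified with the multiplicity at least `m` over
the hypersurfaces `F i = 0`. Then all holomorphic maps from `ℂ` to `X` are constant, and all closed
subvarieties of `X` of positive dimension are of general type. More generally, if the morphism is so
ramified outside the closed subscheme `D` of `X` defined by forms `G t` of degrees `γ t`, then all
holomorphic maps from `ℂ` to `X ∖ D` are constant, and for all closed subvarieties `Y` of `X` of positive
dimension which are not contained in `D` the variety `Y ∖ D` is of logarithmic general type. -/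
theorem result {n d m N K q : ℕ} (hn : 1 ≤ n) (hd : 1 ≤ d) (hm : 2 ≤ m)
    (hN : N + 1 = (n + d).choose n) (hK : 2 * N * m ≤ K * (m - 1)) (hq : (N + K).choose N < q) :
    ∃ Ψ : MvPolynomial (Fin q × Exps n d) ℂ, Ψ ≠ 0 ∧
      ∀ F : Fin q → MvPolynomial (Fin (n + 1)) ℂ, (∀ i, (F i).IsHomogeneous d) →
        eval (fun x => coeff x.2.1 (F x.1)) Ψ ≠ 0 →
          ∀ (r : ℕ) (X : FinCover ℂ n r),
            (X.Ramified F m d → X.Brody ∧ X.AllGeneralType) ∧
            ∀ (κ : Type) (G : κ → MvPolynomial (Fin (n + 1) ⊕ Fin r) ℂ) (γ : κ → ℕ),
              X.RamifiedOff F m d G γ → X.BrodyOff G ∧ X.AllLogGeneralType G γ :=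
  main_c hn hd hm hN hK hq

end Pool.Agent.Results.MP_c6ff8d_ag.RamifiedCoversHyperbolic
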