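import Pool.Agent.Q171.RC.NonGT

/-!
# Lang's criterion in algebraic families, for curves of bounded complexity

Let `k` be a field with an embedding in `ℂ` and let `X_t`, for `t = (t_1, ..., t_m)`, be an algebraic
family of projective varieties over `k`: `X_t` is given by forms in `n + 1` variables of degree at most
`D` whose coefficients are polynomials in `t` over `k`. We consider curves `f : Ω → X_t`, on all domains
`Ω` of the plane (for instance `Ω = ℂ`), with homogeneous coordinates given by `s` iterated linear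
differential equations with matrices of size `r` and polynomials of degree at most `e`
(`DVec Ω s r e f`): there are invertible matrices `X_1(z), ..., X_s(z)` of size `r` of analytic
functions on `Ω` such that the entries of `X_l'(z) X_l(z)⁻¹` are values of polynomials with constant
coefficients, of degree at most `e` in each variable, at the entries of `X_i(z)`, `X_i(z)⁻¹`, `i < l`,
and the coordinates of `f(z)` are values of such polynomials at the entries of all these matrices.

For every such family and all `s`, `r`, `e` there are finitely many forms `G` with coefficients in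
`k[t_1, ..., t_m]`, with sets of zeros `Z_t`, and a Zariski-OPEN set `U` of parameters, given by
polynomials over `k`, such that for all `t` with coordinates in `ℂ`

(1) every point of `Z_t` lies on a subvariety of `X_t` of dimension one which is NOT of general type;

(2) every nonconstant curve of complexity `(s, r, e)` on `X_t` has its image in `Z_t`;

(3) `t` is in `U` if and only if `Z_t` is empty (so for `t` in `U` all curves of complexity `(s, r, e)`
on `X_t` are constant);

(4) `U` contains all `t` for which `X_t` is hyperbolic and all `t` for which all subvarieties of `X_t`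
are of general type.

So, for `t` not in `U`, both sides of Lang's criterion fail for `X_t`; if one of them holds for one
member `X_t` of the family, then all members in a Zariski-open neighbourhood of `t` are hyperbolic with
respect to the curves of complexity `(s, r, e)`; and in any `X_t` all the curves of this complexity are
contained in the subvarieties which are not of general type.
-/

set_option autoImplicit false

namespace Pool.Agent.Results.MP_c6ff8d_ag.SubvarietiesInFamilies

open MvPolynomial Pool.Agent.Q1.SL Pool.Agent.Q171.RC Pool.Agent.W602.GT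

/-- The projective variety `X = {F = 0, F ∈ S}` is (Brody, hence Kobayashi) hyperbolic. -/
def Hyperbolic {N : ℕ} (S : Set (MvPolynomial (Fin N) ℂ)) : Prop :=
  ∀ g : ℂ → (Fin N → ℂ), Differentiable ℂ g → (∀ z, g z ≠ 0) →
    (∀ z, ∀ F ∈ S, eval (g z) F = 0) → ∀ z, ∃ c : ℂ, g z = c • g 0

/-- All closed subvarieties of positive dimension of the projective variety of `S` are of general
type. Subvarieties of dimension `w` are given by their function fields `K` and generic points `y`. -/
def AllOfGeneralType {n : ℕ} (S : Set (MvPolynomial (Fin (n + 1)) ℂ)) : Prop :=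
  ∀ (K : Type) [Field K] [Algebra ℂ K] (w : ℕ) (y : Fin (n + 1) → K), 1 ≤ w →
    SubVar (fun F : S => F.1) K w y → GeneralType ℂ K w

/-- The point `x` lies on an irreducible closed subvariety of dimension one of the projective variety
of `S` which is not of general type. -/
def OnNotGeneralType {n : ℕ} (S : Set (MvPolynomial (Fin (n + 1)) ℂ)) (x : Fin (n + 1) → ℂ) : Prop :=
  ∃ (K : Type) (_ : Field K) (_ : Algebra ℂ K) (y : Fin (n + 1) → K),
    SubVar (fun F : S => F.1) K 1 y ∧ ¬ GeneralType ℂ K 1 ∧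
      ∀ G : MvPolynomial (Fin (n + 1)) ℂ, (∃ d, G.IsHomogeneous d) → aeval y G = 0 → eval x G = 0

/-- `f` is a nonconstant curve on the projective variety of `S`, on the domain `Ω`, of complexity
`(s, r, e)`. -/
def IsCurve {N : ℕ} (S : Set (MvPolynomial (Fin N) ℂ)) (s r e : ℕ) (Ω : Set ℂ)
    (f : ℂ → Fin N → ℂ) : Prop :=
  IsOpen Ω ∧ IsPreconnected Ω ∧ DVec Ω s r e f ∧ (∀ z ∈ Ω, ∀ F ∈ S, eval (f z) F = 0) ∧
    ∃ z ∈ Ω, ∃ w ∈ Ω, ∃ i j, f z i * f w j ≠ f z j * f w i

/-- the equations of the member `X_t` of the family, for `t` with coordinates in `ℂ` -/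
def member {N m : ℕ} {k : Type} [Field k] [Algebra k ℂ]
    (S : Set (MvPolynomial (Fin N) (MvPolynomial (Fin m) k))) (t : Fin m → ℂ) :
    Set (MvPolynomial (Fin N) ℂ) := map (aeval t : MvPolynomial (Fin m) k →ₐ[k] ℂ).toRingHom '' S

theorem result (n D s r e : ℕ) (k : Type) [Field k] [Algebra k ℂ] (m : ℕ)
    (S : Set (MvPolynomial (Fin (n + 1)) (MvPolynomial (Fin m) k)))
    (hS : ∀ F ∈ S, ∃ e, e ≤ D ∧ F.IsHomogeneous e) :
    ∃ (Z : Set (MvPolynomial (Fin (n + 1)) (MvPolynomial (Fin m) k)))
      (Ps : Set (MvPolynomial (Fin m) k)), Z.Finite ∧ (∀ G ∈ Z, ∃ d, G.IsHomogeneous d) ∧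
      ∀ t : Fin m → ℂ,
        (∀ x : Fin (n + 1) → ℂ, x ≠ 0 → (∀ G ∈ member Z t, eval x G = 0) →
          OnNotGeneralType (member S t) x) ∧
        (∀ (Ω : Set ℂ) (f : ℂ → Fin (n + 1) → ℂ), IsCurve (member S t) s r e Ω f →
          ∀ z ∈ Ω, f z ≠ 0 → ∀ G ∈ member Z t, eval (f z) G = 0) ∧
        ((∃ Ψ ∈ Ps, aeval t Ψ ≠ 0) ↔
          ∀ x : Fin (n + 1) → ℂ, x ≠ 0 → ∃ G ∈ member Z t, eval x G ≠ 0) ∧
        (Hyperbolic (member S t) ∨ AllOfGeneralType (member S t) → ∃ Ψ ∈ Ps, aeval t Ψ ≠ 0) := by
  classical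
  obtain ⟨δ, hδ⟩ := ode_locus n D s r e
  have hS' : ∀ F ∈ S, ∃ d, F.IsHomogeneous d := fun F hF => by
    obtain ⟨e, -, he⟩ := hS F hF
    exact ⟨e, he⟩
  have hSt : ∀ t, ∀ F ∈ member S t, ∃ e, e ≤ D ∧ F.IsHomogeneous e := by
    rintro t _ ⟨F, hF, rfl⟩
    obtain ⟨e, he, he'⟩ := hS F hF
    exact ⟨e, he, he'.map _⟩
  have hSt' : ∀ t, ∀ F ∈ member S t, ∃ d, F.IsHomogeneous d := fun t F hF => by
    obtain ⟨e, -, he⟩ := hSt t F hF
    exact ⟨e, he⟩
  obtain ⟨Gs, hGs, hloc⟩ := locus ℂ S hS' δ
  obtain ⟨Ps, hPs⟩ := open_locus S hS' δ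
  have hpt : ∀ (t : Fin m → ℂ) (y : Fin (n + 1) → ℂ),
      HasPt (ev t : MvPolynomial (Fin m) k →+* ℂ) S δ y ↔ OnRat (member S t) δ y := by
    intro t y
    constructor
    · rintro ⟨p, h1, h2, h3, h4⟩
      refine ⟨p, h1, h2, ?_, h4⟩
      rintro _ ⟨F, hF, rfl⟩
      exact h3 F hF
    · rintro ⟨p, h1, h2, h3, h4⟩
      exact ⟨p, h1, h2, fun F hF => h3 _ ⟨F, hF, rfl⟩, h4⟩
  have hiff : ∀ (t : Fin m → ℂ) (x : Fin (n + 1) → ℂ), x ≠ 0 →
      ((∀ G ∈ member (Gs : Set (MvPolynomial (Fin (n + 1)) (MvPolynomial (Fin m) k))) t,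
        eval x G = 0) ↔ OnRat (member S t) δ x) := by
    intro t x hx
    rw [← hpt, ← hloc t x hx]
    constructor
    · intro h G hG
      exact h _ ⟨G, hG, rfl⟩
    · rintro h _ ⟨G, hG, rfl⟩
      exact h G hG
  refine ⟨Gs, Ps, Gs.finite_toSet, fun G hG => hGs G hG, fun t => ⟨fun x hx h => ?_, ?_, ?_, ?_⟩⟩
  · obtain ⟨K, i1, i2, y, h1, h2, h3⟩ := nonGT_through (hSt' t) ((hiff t x hx).1 h)
    exact ⟨K, i1, i2, y, h1, h2, h3⟩
  · rintro Ω f ⟨hΩ, hΩc, hf, hfS, hnc⟩ z hz hfz
    exact (hiff t (f z) hfz).2 (hδ _ (hSt t) Ω hΩ hΩc f hf hfS hnc z hz hfz)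
  · rw [hPs t]
    change NoRatLe (member S t) δ ↔ _
    rw [noRatLe_iff (hSt' t)]
    refine forall_congr' fun x => forall_congr' fun hx => ?_
    rw [← hiff t x hx]
    push Not
    rfl
  · intro h
    rw [hPs t]
    rcases h with h | h
    · exact noRat_of_brody (hSt' t) h δ
    · exact noRat_of_gt (hSt' t) h δ

end Pool.Agent.Results.MP_c6ff8d_ag.SubvarietiesInFamilies
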